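import Mathlib
import Pool.Agent.SSS.Core

/-! Trace-minimising arithmetic measures have logarithmic energy zero. -/

namespace Pool.Agent.Results.MP_1ddd1c_nt.EnergyZero

open MeasureTheory Polynomial Set Pool.Agent.SSS

/-- The set of totally positive algebraic integers: algebraic integers `α` in `ℂ` all of whose
Galois conjugates (the complex roots of the minimal polynomial of `α` over `ℚ`) are real and
nonnegative. -/
def TotPos : Set ℂ :=
  {α : ℂ | IsIntegral ℤ α ∧ ∀ z ∈ (minpoly ℚ α).aroots ℂ, z.im = 0 ∧ 0 ≤ z.re}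

/-- The normalised trace of `α`: the sum of (the real parts of) its conjugates, divided by its
degree over `ℚ`. -/
noncomputable def ntr (α : ℂ) : ℝ :=
  (((minpoly ℚ α).aroots ℂ).map Complex.re).sum / (minpoly ℚ α).natDegree

/-- The Schur-Siegel-Smyth constant: the smallest limiting value of the normalised trace along
sequences of distinct totally positive algebraic integers. -/
noncomputable def lambdaSSS : EReal :=
  Filter.liminf (fun α : TotPos => ((ntr (α : ℂ) : ℝ) : EReal)) Filter.cofinite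

/-- A monic irreducible integer polynomial with `f.natDegree` distinct nonnegative real roots
gives a totally positive algebraic integer for each of its roots. -/
theorem of_poly {f : ℤ[X]} (hfm : f.Monic) (hfi : Irreducible f) {S : Finset ℝ}
    (hS1 : (f.map (algebraMap ℤ ℝ)).roots = S.val) (hS2 : S.card = f.natDegree)
    (hS3 : ∀ y ∈ S, 0 ≤ y) {y : ℝ} (hy : y ∈ S) :
    (y : ℂ) ∈ TotPos ∧ (minpoly ℚ (y : ℂ)).natDegree = f.natDegree ∧
      ntr (y : ℂ) = (∑ x ∈ S, x) / f.natDegree := by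
  have hf0 : f ≠ 0 := hfm.ne_zero
  have hfR : f.map (algebraMap ℤ ℝ) ≠ 0 := (hfm.map _).ne_zero
  have hroot : aeval (y : ℂ) f = 0 := by
    have h1 : y ∈ (f.map (algebraMap ℤ ℝ)).roots := by rw [hS1]; exact hy
    have h2 : aeval y f = 0 := by
      have := (mem_roots hfR).1 h1
      rw [IsRoot.def, eval_map_algebraMap] at this
      exact this
    have h3 : aeval (algebraMap ℝ ℂ y) f = algebraMap ℝ ℂ (aeval y f) :=
      aeval_algebraMap_apply ℂ y f
    rw [h2, map_zero] at h3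
    exact h3
  have hint : IsIntegral ℤ (y : ℂ) := ⟨f, hfm, by rw [← aeval_def]; exact hroot⟩
  have hirr : Irreducible (f.map (algebraMap ℤ ℚ)) :=
    (hfm.irreducible_iff_irreducible_map_fraction_map).1 hfi
  have hmin : minpoly ℚ (y : ℂ) = f.map (algebraMap ℤ ℚ) := by
    symm
    apply minpoly.eq_of_irreducible_of_monic hirr
    · rw [aeval_map_algebraMap]; exact hroot
    · exact hfm.map _
  have hdeg : (minpoly ℚ (y : ℂ)).natDegree = f.natDegree := by
    rw [hmin, hfm.natDegree_map]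
  have hsplit : (f.map (algebraMap ℤ ℝ)).Splits := by
    rw [splits_iff_card_roots, hS1, hfm.natDegree_map]
    exact hS2
  have haroots : (minpoly ℚ (y : ℂ)).aroots ℂ = S.val.map (fun x : ℝ => (x : ℂ)) := by
    rw [hmin, aroots_def, Polynomial.map_map, ← IsScalarTower.algebraMap_eq ℤ ℚ ℂ,
      IsScalarTower.algebraMap_eq ℤ ℝ ℂ, ← Polynomial.map_map, hsplit.roots_map, hS1]
    rfl
  refine ⟨⟨hint, ?_⟩, hdeg, ?_⟩
  · intro z hz
    rw [haroots, Multiset.mem_map] at hz
    obtain ⟨x, hx, rfl⟩ := hz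
    exact ⟨Complex.ofReal_im x, by rw [Complex.ofReal_re]; exact hS3 x hx⟩
  · rw [ntr, haroots, hdeg, Multiset.map_map]
    congr 1

/-- **Answer to Q1.** If `μ` is an arithmetic probability measure whose support is a compact
subset of `[0, ∞)` and `∫ x dμ(x) = λ^SSS`, then the logarithmic energy of `μ` is `0` (the
diagonal is null and `log |x - y|` is integrable, so the energy is a genuine real number). -/
theorem result (μ : Measure ℝ) (hμ : IsArithmetic μ) (K : Set ℝ) (hK : IsCompact K)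
    (hK0 : K ⊆ Ici 0) (hμK : μ Kᶜ = 0)
    (hx : ((∫ x : ℝ, x ∂μ : ℝ) : EReal) = lambdaSSS) :
    (μ.prod μ) {p : ℝ × ℝ | p.1 = p.2} = 0 ∧
      Integrable (fun p : ℝ × ℝ => Real.log |p.1 - p.2|) (μ.prod μ) ∧
      ∫ p : ℝ × ℝ, Real.log |p.1 - p.2| ∂(μ.prod μ) = 0 := by
  obtain ⟨M, hM⟩ := hK.bddAbove
  obtain ⟨L, hL1, hLM⟩ : ∃ L : ℝ, 1 ≤ L ∧ M ≤ 4 * L := by
    refine ⟨max 1 (M / 4), le_max_left _ _, ?_⟩
    have := le_max_right 1 (M / 4)
    linarith
  have hae : ∀ᵐ x ∂μ, x ∈ Icc (0 : ℝ) (4 * L) := by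
    have h1 : ∀ᵐ x ∂μ, x ∈ K := by
      rw [ae_iff]; exact hμK
    filter_upwards [h1] with x hx
    exact ⟨hK0 hx, (hM hx).trans hLM⟩
  obtain ⟨he1, he2, he3⟩ := energy_finite hL1 hae hμ
  refine ⟨he1, he2, ?_⟩
  by_contra hne
  have hpos : 0 < ∫ p : ℝ × ℝ, Real.log |p.1 - p.2| ∂(μ.prod μ) :=
    lt_of_le_of_ne he3 (Ne.symm hne)
  obtain ⟨ε, hε, hcore⟩ := core hL1 hae hμ hpos
  have hfreq : ∃ᶠ α : TotPos in Filter.cofinite,
      ((ntr (α : ℂ) : ℝ) : EReal) ≤ ((∫ x : ℝ, x ∂μ - ε : ℝ) : EReal) := by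
    rw [Filter.frequently_cofinite_iff_infinite]
    intro hfin
    obtain ⟨B, hB⟩ := (hfin.image fun α : TotPos => (minpoly ℚ (α : ℂ)).natDegree).bddAbove
    obtain ⟨f, hfm, hfi, hfn, S, hS1, hS2, hS3, hS4⟩ := hcore (B + 1)
    have hSne : S.Nonempty := by
      rw [← Finset.card_pos, hS2]; omega
    obtain ⟨y, hy⟩ := hSne
    obtain ⟨h1, h2, h3⟩ := of_poly hfm hfi hS1 hS2 hS3 hy
    have h4 : (minpoly ℚ (y : ℂ)).natDegree ≤ B := by
      apply hB
      refine ⟨⟨(y : ℂ), h1⟩, ?_, rfl⟩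
      show ((ntr (y : ℂ) : ℝ) : EReal) ≤ ((∫ x : ℝ, x ∂μ - ε : ℝ) : EReal)
      rw [EReal.coe_le_coe_iff, h3, div_le_iff₀ (by
        have : 0 < f.natDegree := by omega
        exact_mod_cast this), mul_comm]
      exact hS4
    omega
  have hle : lambdaSSS ≤ ((∫ x : ℝ, x ∂μ - ε : ℝ) : EReal) :=
    Filter.liminf_le_of_frequently_le' hfreq
  rw [← hx, EReal.coe_le_coe_iff] at hle
  linarith

end Pool.Agent.Results.MP_1ddd1c_nt.EnergyZero
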